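import Pool.Agent.W47.TM.Defs

set_option autoImplicit false

/-!
# The coefficients of the remainder

Project TM (owner helper47), part REM, by helper215.
-/

namespace Pool.Agent.W215.TM

open Finset Pool.Agent.W47.TM

theorem sum_ex (n N h : ℕ) (hh : h ≤ n) : ∑ l ∈ range (n + 1), ex N h l = (n + 1) * N + 1 := by
  unfold ex
  rw [Finset.sum_add_distrib, Finset.sum_const, Finset.card_range, smul_eq_mul,
    Finset.sum_ite_eq' (range (n + 1)) h, if_pos (Finset.mem_range.2 (by omega))]

section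
open Polynomial

/-- homogenised partial fractions -/
theorem hom_pf (H : S_PF) (n N h : ℕ) (hN : 1 ≤ N) (hh : h ≤ n) :
    (∑ k ∈ range (n + 1), ∑ j ∈ range (ex N h k), C (co n N h k j) * X ^ (j + 1) *
      (∏ l ∈ (range (n + 1)).erase k, (1 - C (l : ℚ) * X) ^ ex N h l) *
        (1 - C (k : ℚ) * X) ^ (ex N h k - 1 - j) : ℚ[X]) = X ^ ((n + 1) * N + 1) := by
  apply Polynomial.eq_of_infinite_eval_eq
  apply Set.Infinite.mono (s := {x : ℚ | x ≠ 0})
  · intro s hs
    have hs0 : s ≠ 0 := hs
    have h1 := congrArg (Polynomial.eval s⁻¹) (H n N h hN hh)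
    show Polynomial.eval s _ = Polynomial.eval s _
    simp only [eval_finsetSum, eval_mul, eval_C, eval_prod, eval_pow, eval_sub, eval_X,
      eval_one] at h1 ⊢
    refine Eq.trans ?_ ((congrArg (s ^ ((n + 1) * N + 1) * ·) h1).trans (mul_one _))
    show _ = s ^ ((n + 1) * N + 1) * _
    rw [Finset.mul_sum]
    refine Finset.sum_congr rfl fun k hk => ?_
    rw [Finset.mul_sum]
    refine Finset.sum_congr rfl fun j hj => ?_
    have hj' := Finset.mem_range.1 hj
    have e1 : (n + 1) * N + 1 = (j + 1) + (∑ l ∈ (range (n + 1)).erase k, ex N h l) +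
        (ex N h k - 1 - j) := by
      rw [← sum_ex n N h hh, ← Finset.add_sum_erase _ _ hk]
      omega
    have e0 : s ^ ((n + 1) * N + 1) = s ^ (j + 1) *
        (∏ l ∈ (range (n + 1)).erase k, s ^ ex N h l) * s ^ (ex N h k - 1 - j) := by
      rw [Finset.prod_pow_eq_pow_sum, ← pow_add, ← pow_add, ← e1]
    rw [e0]
    have e2 : ∀ l : ℕ, (1 - (l : ℚ) * s) = s * (s⁻¹ - l) := by
      intro l
      field_simp
    simp only [e2, mul_pow, Finset.prod_mul_distrib]
    ring
  · exact (Set.finite_singleton (0 : ℚ)).infinite_compl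

end

/-- the geometric series of `k` -/
noncomputable def geo (k : ℕ) : PowerSeries ℚ :=
  PowerSeries.rescale (k : ℚ) (PowerSeries.mk 1)

theorem geo_mul (k : ℕ) : geo k * (1 - PowerSeries.C (k : ℚ) * PowerSeries.X) = 1 := by
  have h := congrArg (PowerSeries.rescale (k : ℚ))
    (PowerSeries.mk_one_mul_one_sub_eq_one ℚ)
  rw [map_mul, map_sub, map_one, PowerSeries.rescale_X] at h
  exact h

theorem coeff_geo_pow (k j i : ℕ) : PowerSeries.coeff i (geo k ^ (j + 1)) =
    (k : ℚ) ^ i * ((j + i).choose j : ℚ) := by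
  unfold geo
  rw [← map_pow, PowerSeries.coeff_rescale, PowerSeries.mk_one_pow_eq_mk_choose_add,
    PowerSeries.coeff_mk]

/-- coefficientwise domination -/
def Dom (f g : PowerSeries ℚ) : Prop :=
  ∀ i, 0 ≤ PowerSeries.coeff i f ∧ PowerSeries.coeff i f ≤ PowerSeries.coeff i g

theorem Dom.mul {f g f' g' : PowerSeries ℚ} (h : Dom f g) (h' : Dom f' g') :
    Dom (f * f') (g * g') := by
  intro i
  rw [PowerSeries.coeff_mul, PowerSeries.coeff_mul]
  refine ⟨Finset.sum_nonneg fun p _ => mul_nonneg (h _).1 (h' _).1,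
    Finset.sum_le_sum fun p _ => mul_le_mul (h _).2 (h' _).2 (h' _).1 ?_⟩
  exact (h _).1.trans (h _).2

theorem Dom.one : Dom 1 1 := by
  intro i
  refine ⟨?_, le_rfl⟩
  rw [PowerSeries.coeff_one]
  split_ifs <;> norm_num

theorem Dom.pow {f g : PowerSeries ℚ} (h : Dom f g) : ∀ e : ℕ, Dom (f ^ e) (g ^ e)
  | 0 => by rw [pow_zero, pow_zero]; exact Dom.one
  | e + 1 => by rw [pow_succ, pow_succ]; exact (Dom.pow h e).mul h

theorem Dom.prod {ι : Type} (s : Finset ι) (f g : ι → PowerSeries ℚ)
    (h : ∀ i ∈ s, Dom (f i) (g i)) : Dom (∏ i ∈ s, f i) (∏ i ∈ s, g i) := by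
  classical
  induction s using Finset.induction_on with
  | empty => rw [Finset.prod_empty, Finset.prod_empty]; exact Dom.one
  | insert a s ha ih =>
    rw [Finset.prod_insert ha, Finset.prod_insert ha]
    exact (h a (Finset.mem_insert_self a s)).mul
      (ih fun i hi => h i (Finset.mem_insert_of_mem hi))

theorem dom_geo (l n : ℕ) (h : l ≤ n) : Dom (geo l) (geo n) := by
  intro i
  have h1 := coeff_geo_pow l 0 i
  have h2 := coeff_geo_pow n 0 i
  rw [zero_add, pow_one] at h1 h2
  rw [h1, h2]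
  simp only [zero_add, Nat.choose_zero_right, Nat.cast_one, mul_one]
  exact ⟨by positivity, pow_le_pow_left₀ (by positivity) (by exact_mod_cast h) i⟩

/-- the identity of power series -/
theorem ps_pf (H : S_PF) (n N h : ℕ) (hN : 1 ≤ N) (hh : h ≤ n) :
    (∑ k ∈ range (n + 1), ∑ j ∈ range (ex N h k), PowerSeries.C (co n N h k j) *
      PowerSeries.X ^ (j + 1) * geo k ^ (j + 1) : PowerSeries ℚ) =
      PowerSeries.X ^ ((n + 1) * N + 1) * ∏ l ∈ range (n + 1), geo l ^ ex N h l := by
  have h0 := congrArg (Polynomial.coeToPowerSeries.ringHom (R := ℚ)) (hom_pf H n N h hN hh)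
  simp only [map_sum, map_mul, map_pow, map_prod, map_sub, map_one,
    Polynomial.coeToPowerSeries.ringHom_apply, Polynomial.coe_C, Polynomial.coe_X] at h0
  rw [← h0, Finset.sum_mul]
  refine Finset.sum_congr rfl fun k hk => ?_
  rw [Finset.sum_mul]
  refine Finset.sum_congr rfl fun j hj => ?_
  have hj' := Finset.mem_range.1 hj
  rw [← Finset.mul_prod_erase _ _ hk]
  have e1 : (∏ l ∈ (range (n + 1)).erase k,
      (1 - PowerSeries.C (l : ℚ) * PowerSeries.X) ^ ex N h l) *
      ∏ l ∈ (range (n + 1)).erase k, geo l ^ ex N h l = (1 : PowerSeries ℚ) := by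
    rw [← Finset.prod_mul_distrib]
    refine Finset.prod_eq_one fun l _ => ?_
    rw [← mul_pow, mul_comm, geo_mul, one_pow]
  have e2 : (1 - PowerSeries.C (k : ℚ) * PowerSeries.X) ^ (ex N h k - 1 - j) *
      geo k ^ ex N h k = geo k ^ (j + 1) := by
    have e3 : ex N h k = (ex N h k - 1 - j) + (j + 1) := by omega
    calc (1 - PowerSeries.C (k : ℚ) * PowerSeries.X) ^ (ex N h k - 1 - j) * geo k ^ ex N h k
        = (1 - PowerSeries.C (k : ℚ) * PowerSeries.X) ^ (ex N h k - 1 - j) *
          geo k ^ ((ex N h k - 1 - j) + (j + 1)) := by rw [← e3]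
      _ = (geo k * (1 - PowerSeries.C (k : ℚ) * PowerSeries.X)) ^ (ex N h k - 1 - j) *
          geo k ^ (j + 1) := by rw [pow_add, mul_pow]; ring
      _ = geo k ^ (j + 1) := by rw [geo_mul, one_pow, one_mul]
  have gen : ∀ a b c d e f g : PowerSeries ℚ, c * d = 1 → e * f = g →
      a * b * g = a * b * c * e * (f * d) := by
    intro a b c d e f g h1 h2
    rw [← h2]
    calc a * b * (e * f) = a * b * 1 * (e * f) := by ring
      _ = a * b * (c * d) * (e * f) := by rw [h1]
      _ = _ := by ring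
  exact gen _ _ _ _ _ _ _ e1 e2

/-- the coefficients of the remainder -/
theorem fact_rc (H : S_PF) (n N h m : ℕ) (hN : 1 ≤ N) (hh : h ≤ n) :
    (m.factorial : ℚ) * rc n N h m = PowerSeries.coeff (m + 1)
      (PowerSeries.X ^ ((n + 1) * N + 1) * ∏ l ∈ range (n + 1), geo l ^ ex N h l) := by
  rw [← ps_pf H n N h hN hh]
  unfold rc
  rw [Finset.mul_sum, map_sum]
  refine Finset.sum_congr rfl fun k _ => ?_
  rw [Finset.mul_sum, map_sum]
  refine Finset.sum_congr rfl fun j _ => ?_
  rw [mul_assoc, PowerSeries.coeff_C_mul, PowerSeries.coeff_X_pow_mul']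
  by_cases hjm : j ≤ m
  · rw [if_pos hjm, if_pos (by omega), coeff_geo_pow,
      show m + 1 - (j + 1) = m - j by omega, show j + (m - j) = m by omega]
    have e := Nat.choose_mul_factorial_mul_factorial hjm
    have e' : (m.factorial : ℚ) = (m.choose j : ℚ) * (j.factorial : ℚ) * ((m - j).factorial : ℚ) := by
      exact_mod_cast e.symm
    rw [e']
    have f1 : (j.factorial : ℚ) ≠ 0 := by exact_mod_cast j.factorial_ne_zero
    have f2 : ((m - j).factorial : ℚ) ≠ 0 := by exact_mod_cast (m - j).factorial_ne_zero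
    field_simp
  · rw [if_neg hjm, if_neg (by omega), mul_zero, mul_zero]

theorem rem : S_T2 := by
  intro H n N h hN hh
  have key := fact_rc H n N h
  constructor
  · intro m hm
    have h1 := key m hN hh
    rw [PowerSeries.coeff_X_pow_mul', if_neg (by omega)] at h1
    have f1 : (m.factorial : ℚ) ≠ 0 := by exact_mod_cast m.factorial_ne_zero
    exact (mul_eq_zero.1 h1).resolve_left f1
  · intro m hm
    have h1 := key m hN hh
    rw [PowerSeries.coeff_X_pow_mul', if_pos (by omega),
      show m + 1 - ((n + 1) * N + 1) = m - (n + 1) * N by omega] at h1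
    have h2 : Dom (∏ l ∈ range (n + 1), geo l ^ ex N h l)
        (∏ l ∈ range (n + 1), geo n ^ ex N h l) :=
      Dom.prod _ _ _ fun l hl => (dom_geo l n (by
        have := Finset.mem_range.1 hl
        omega)).pow _
    rw [Finset.prod_pow_eq_pow_sum, sum_ex n N h hh] at h2
    have h3 := h2 (m - (n + 1) * N)
    rw [← h1, coeff_geo_pow, show (n + 1) * N + (m - (n + 1) * N) = m by omega] at h3
    have f1 : (0 : ℚ) < (m.factorial : ℚ) := by exact_mod_cast m.factorial_pos
    refine ⟨?_, ?_⟩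
    · by_contra hneg
      rw [not_le] at hneg
      have := mul_neg_of_pos_of_neg f1 hneg
      linarith [h3.1]
    · rw [le_div_iff₀ f1]
      calc rc n N h m * (m.factorial : ℚ) = m.factorial * rc n N h m := mul_comm _ _
        _ ≤ _ := h3.2
        _ = _ := mul_comm _ _

end Pool.Agent.W215.TM
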